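import Pool.Agent.Lib.MP_1a91b9_ntT.DY.Defs

/-!
# The symbol at a dyadic place
-/

set_option autoImplicit false

namespace Pool.Agent.Lib.MP_1a91b9_ntT.DY

open NumberField IsDedekindDomain Pool.Agent.Lib.MP_1a91b9_ntT.S1

section
variable {F : Type*} [Field F] [NumberField F]

/-- `δ = a² + 4 b` is a square modulo `4 v` iff `t² + a t = b` can be solved modulo `v`. -/
theorem isSp_iff (v : HeightOneSpectrum (𝓞 F)) (δ a b : 𝓞 F) (h : δ = a ^ 2 + 4 * b) :
    IsSp v δ ↔ ∃ t : 𝓞 F, t ^ 2 + a * t - b ∈ v.asIdeal := by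
  have h4 : (4 : 𝓞 F) ≠ 0 := by norm_num
  constructor
  · rintro ⟨c, hc⟩
    obtain ⟨e, he, hce⟩ := Ideal.mem_span_singleton_mul.mp hc
    -- `(c - a) / 2` is integral
    have hint : ∃ t : 𝓞 F, c = a + 2 * t := by
      have h1 : IsIntegral (𝓞 F) (((c : F) - a) / 2) := by
        refine ⟨Polynomial.X ^ 2 + Polynomial.C a * Polynomial.X - Polynomial.C (e + b), ?_, ?_⟩
        · have : (Polynomial.X ^ 2 + Polynomial.C a * Polynomial.X - Polynomial.C (e + b) :
              Polynomial (𝓞 F)) = Polynomial.X ^ 2 + (Polynomial.C a * Polynomial.X -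
                Polynomial.C (e + b)) := by ring
          rw [this]
          refine Polynomial.monic_X_pow_add ?_
          compute_degree!
        · have h2 : (4 : F) * e = (c : F) ^ 2 - δ := by
            have := congrArg (algebraMap (𝓞 F) F) hce
            rw [map_mul, map_sub, map_pow, map_ofNat] at this
            exact this
          have h3 : (δ : F) = (a : F) ^ 2 + 4 * b := by
            have := congrArg (algebraMap (𝓞 F) F) h
            rw [map_add, map_mul, map_pow, map_ofNat] at this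
            exact this
          simp only [Polynomial.eval₂_sub, Polynomial.eval₂_add, Polynomial.eval₂_mul,
            Polynomial.eval₂_pow, Polynomial.eval₂_X, Polynomial.eval₂_C, map_add]
          linear_combination (-1 / 4 : F) * h2 + (1 / 4 : F) * h3
      obtain ⟨t, ht⟩ := IsIntegrallyClosed.isIntegral_iff.1 h1
      refine ⟨t, ?_⟩
      apply RingOfIntegers.coe_injective
      rw [map_add, map_mul, map_ofNat, ht]
      ring
    obtain ⟨t, rfl⟩ := hint
    refine ⟨t, ?_⟩
    have e1 : t ^ 2 + a * t - b = e := by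
      apply mul_left_cancel₀ h4
      rw [hce, h]
      ring
    rw [e1]
    exact he
  · rintro ⟨t, ht⟩
    refine ⟨a + 2 * t, ?_⟩
    have e1 : (a + 2 * t) ^ 2 - δ = 4 * (t ^ 2 + a * t - b) := by rw [h]; ring
    rw [e1]
    exact Ideal.mul_mem_mul (Ideal.mem_span_singleton_self _) ht

/-- the Artin-Schreier map has index two image -/
theorem exists_as_iff {k : Type*} [Field k] [Finite k] (h2 : (2 : k) = 0) (x y : k) :
    (∃ s : k, s ^ 2 + s = x + y) ↔ ((∃ s : k, s ^ 2 + s = x) ↔ ∃ s : k, s ^ 2 + s = y) := by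
  have hchar : CharP k 2 := CharTwo.of_one_ne_zero_of_two_eq_zero one_ne_zero h2
  let f : k →+ k :=
    { toFun := fun s => s ^ 2 + s
      map_zero' := by simp
      map_add' := fun s t => by
        linear_combination (s * t) * h2 }
  have hker : Nat.card f.ker = 2 := by
    have e : (f.ker : Set k) = {0, 1} := by
      ext s
      simp only [SetLike.mem_coe, AddMonoidHom.mem_ker, Set.mem_insert_iff, Set.mem_singleton_iff]
      change s ^ 2 + s = 0 ↔ _
      constructor
      · intro h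
        have h3 : s * (s + 1) = 0 := by linear_combination h
        rcases mul_eq_zero.mp h3 with h | h
        · exact Or.inl h
        · right
          linear_combination h - h2
      · rintro (rfl | rfl)
        · ring
        · linear_combination h2
    have h3 : Nat.card f.ker = (f.ker : Set k).ncard := rfl
    rw [h3, e, Set.ncard_pair zero_ne_one]
  have hidx : f.range.index = 2 := by
    have h3 : f.range.index * Nat.card f.range = Nat.card k := f.range.index_mul_card
    have h4 : Nat.card f.range * Nat.card f.ker = Nat.card k := by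
      have h5 := f.ker.index_mul_card
      have h6 : f.ker.index = Nat.card f.range := AddSubgroup.index_ker f
      rw [← h6]
      exact h5
    rw [hker] at h4
    have hpos : 0 < Nat.card f.range := Nat.card_pos
    have h5 : Nat.card f.range * f.range.index = Nat.card f.range * 2 := by
      rw [h4, mul_comm, h3]
    exact Nat.eq_of_mul_eq_mul_left hpos h5
  have key := AddSubgroup.add_mem_iff_of_index_two hidx (a := x) (b := y)
  have hm : ∀ z : k, z ∈ f.range ↔ ∃ s : k, s ^ 2 + s = z := fun z => Iff.rfl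
  rw [hm, hm, hm] at key
  exact key

/-- normalisation of the Artin-Schreier equation modulo `v` -/
theorem isSp_iff' (v : HeightOneSpectrum (𝓞 F)) (δ a b u : 𝓞 F) (h : δ = a ^ 2 + 4 * b)
    (hu : u * a - 1 ∈ v.asIdeal) :
    IsSp v δ ↔ ∃ s : 𝓞 F ⧸ v.asIdeal, s ^ 2 + s = Ideal.Quotient.mk v.asIdeal (b * u ^ 2) := by
  rw [isSp_iff v δ a b h]
  have hmk : Ideal.Quotient.mk v.asIdeal u * Ideal.Quotient.mk v.asIdeal a = 1 := by
    have := Ideal.Quotient.eq_zero_iff_mem.mpr hu
    rw [map_sub, map_mul, map_one] at this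
    exact sub_eq_zero.mp this
  constructor
  · rintro ⟨t, ht⟩
    refine ⟨Ideal.Quotient.mk v.asIdeal (u * t), ?_⟩
    have h1 := Ideal.Quotient.eq_zero_iff_mem.mpr ht
    rw [map_sub, map_add, map_mul, map_pow] at h1
    rw [map_mul, map_mul, map_pow]
    linear_combination (Ideal.Quotient.mk v.asIdeal u) ^ 2 * h1 -
      Ideal.Quotient.mk v.asIdeal u * Ideal.Quotient.mk v.asIdeal t * hmk
  · rintro ⟨s, hs⟩
    obtain ⟨s, rfl⟩ := Ideal.Quotient.mk_surjective s
    refine ⟨a * s, ?_⟩
    rw [← Ideal.Quotient.eq_zero_iff_mem]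
    rw [map_mul, map_pow] at hs
    rw [map_sub, map_add, map_mul, map_pow, map_mul]
    linear_combination (Ideal.Quotient.mk v.asIdeal a) ^ 2 * hs +
      Ideal.Quotient.mk v.asIdeal b * (Ideal.Quotient.mk v.asIdeal u *
        Ideal.Quotient.mk v.asIdeal a + 1) * hmk

theorem exists_inv_mod (v : HeightOneSpectrum (𝓞 F)) (a : 𝓞 F) (ha : a ∉ v.asIdeal) :
    ∃ u : 𝓞 F, u * a - 1 ∈ v.asIdeal := by
  obtain ⟨u, i, hi, hu⟩ := v.isMaximal.exists_inv ha
  refine ⟨u, ?_⟩
  have : u * a - 1 = -i := by linear_combination hu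
  rw [this]
  exact v.asIdeal.neg_mem hi

theorem a_notMem (v : HeightOneSpectrum (𝓞 F)) (h2 : (2 : 𝓞 F) ∈ v.asIdeal) (δ a b : 𝓞 F)
    (h : δ = a ^ 2 + 4 * b) (hδ : δ ∉ v.asIdeal) : a ∉ v.asIdeal := by
  intro ha
  apply hδ
  rw [h]
  refine Ideal.add_mem _ ?_ ?_
  · rw [pow_two]; exact Ideal.mul_mem_left _ _ ha
  · have : (4 : 𝓞 F) * b = 2 * (2 * b) := by ring
    rw [this]
    exact Ideal.mul_mem_right _ _ h2

/-- The symbol at a dyadic place is multiplicative. -/
theorem chi2_mul (v : HeightOneSpectrum (𝓞 F)) (h2 : (2 : 𝓞 F) ∈ v.asIdeal) (δ δ' : 𝓞 F)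
    (hδ : ∃ a b : 𝓞 F, δ = a ^ 2 + 4 * b) (hδ' : ∃ a b : 𝓞 F, δ' = a ^ 2 + 4 * b)
    (h1 : δ ∉ v.asIdeal) (h1' : δ' ∉ v.asIdeal) :
    chi2 v (δ * δ') = chi2 v δ * chi2 v δ' := by
  obtain ⟨a, b, hab⟩ := hδ
  obtain ⟨a', b', hab'⟩ := hδ'
  obtain ⟨u, hu⟩ := exists_inv_mod v a (a_notMem v h2 δ a b hab h1)
  obtain ⟨u', hu'⟩ := exists_inv_mod v a' (a_notMem v h2 δ' a' b' hab' h1')
  have hmax := v.isMaximal
  let _ : Field (𝓞 F ⧸ v.asIdeal) := Ideal.Quotient.field _
  have hfin : Finite (𝓞 F ⧸ v.asIdeal) := Ideal.finiteQuotientOfFreeOfNeBot _ v.ne_bot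
  have h20 : (2 : 𝓞 F ⧸ v.asIdeal) = 0 := by
    have := Ideal.Quotient.eq_zero_iff_mem.mpr h2
    rwa [map_ofNat] at this
  have hprod : δ * δ' = (a * a') ^ 2 + 4 * (a ^ 2 * b' + a' ^ 2 * b + 4 * b * b') := by
    rw [hab, hab']; ring
  have huu : u * u' * (a * a') - 1 ∈ v.asIdeal := by
    have : u * u' * (a * a') - 1 = (u * a - 1) * (u' * a') + (u' * a' - 1) := by ring
    rw [this]
    exact Ideal.add_mem _ (Ideal.mul_mem_right _ _ hu) hu'
  have k1 := isSp_iff' v δ a b u hab hu
  have k2 := isSp_iff' v δ' a' b' u' hab' hu'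
  have k3 := isSp_iff' v (δ * δ') _ _ (u * u') hprod huu
  have hmk : Ideal.Quotient.mk v.asIdeal u * Ideal.Quotient.mk v.asIdeal a = 1 := by
    have := Ideal.Quotient.eq_zero_iff_mem.mpr hu
    rw [map_sub, map_mul, map_one] at this
    exact sub_eq_zero.mp this
  have hmk' : Ideal.Quotient.mk v.asIdeal u' * Ideal.Quotient.mk v.asIdeal a' = 1 := by
    have := Ideal.Quotient.eq_zero_iff_mem.mpr hu'
    rw [map_sub, map_mul, map_one] at this
    exact sub_eq_zero.mp this
  have e : Ideal.Quotient.mk v.asIdeal ((a ^ 2 * b' + a' ^ 2 * b + 4 * b * b') * (u * u') ^ 2) =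
      Ideal.Quotient.mk v.asIdeal (b * u ^ 2) + Ideal.Quotient.mk v.asIdeal (b' * u' ^ 2) := by
    simp only [map_mul, map_add, map_pow, map_ofNat]
    have h40 : (4 : 𝓞 F ⧸ v.asIdeal) = 0 := by linear_combination 2 * h20
    rw [h40]
    generalize Ideal.Quotient.mk v.asIdeal u = U at *
    generalize Ideal.Quotient.mk v.asIdeal u' = U' at *
    generalize Ideal.Quotient.mk v.asIdeal a = A at *
    generalize Ideal.Quotient.mk v.asIdeal a' = A' at *
    generalize Ideal.Quotient.mk v.asIdeal b = B at *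
    generalize Ideal.Quotient.mk v.asIdeal b' = B' at *
    linear_combination B' * U' ^ 2 * (U * A + 1) * hmk + B * U ^ 2 * (U' * A' + 1) * hmk'
  rw [e, exists_as_iff h20] at k3
  rw [← k1, ← k2] at k3
  by_cases h : IsSp v δ <;> by_cases h' : IsSp v δ'
  · rw [chi2_pos h, chi2_pos h', chi2_pos (k3.mpr ⟨fun _ => h', fun _ => h⟩), one_mul]
  · rw [chi2_pos h, chi2_neg h', chi2_neg (fun h3 => h' ((k3.mp h3).mp h)), one_mul]
  · rw [chi2_neg h, chi2_pos h', chi2_neg (fun h3 => h ((k3.mp h3).mpr h')), mul_one]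
  · rw [chi2_neg h, chi2_neg h', chi2_pos (k3.mpr ⟨fun h3 => absurd h3 h, fun h3 => absurd h3 h'⟩)]
    norm_num

end

end Pool.Agent.Lib.MP_1a91b9_ntT.DY
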