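import Pool.Agent.Lib.MP_1a91b9_ntT.DY.Lem

/-!
# DY: the order at `W` of an element with a root in `L` is divisible by `ℓ`

JOB CORE. PROOF (complete; helper30). By contradiction: `¬ ℓ ∣ od w y`, `w = W.under (𝓞 N)`. `M = IntermediateField.fixedField S` (an intermediate field of `L/N`, a number
field), `L/M` is Galois, `finrank N M = S.index` (`IntermediateField.finrank_fixedField_eq_card`: `finrank M L = card S`, `finrank N L = card Gal(L/N)`,
`Subgroup.card_mul_index`). `wM = W.under (𝓞 M)`, `wM.under (𝓞 N) = w`. The ramification index `e` of `wM` over `N` satisfies `0 < e ≤ finrank N M < ℓ`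
(`Ideal.ramificationIdx_le_finrank`, see its use in S4/Place.lean; `ramIdx_pos`), so `¬ ℓ ∣ e`, and `od wM (algebraMap y) = e * od w y` (`od_map`) is not divisible by `ℓ`
(`ℓ` prime). `α ^ ℓ = algebraMap M L (algebraMap N M y)`. Some `τ : Gal(L/M)` has `τ α ≠ α`: otherwise `α = algebraMap M L z` (Galois), `z ^ ℓ = algebraMap N M y`, and
`od wM (z^ℓ) = ℓ * od wM z`. `ξ = τ α / α`: `ξ ≠ 1`, `ξ ^ ℓ = 1`. `toF N τ` (restriction of scalars to `N`) is in `S` (`IntermediateField.fixingSubgroup_fixedField`), as all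
elements of `Gal(L/M)`: so `σ α = α → σ = 1` for `σ : Gal(L/M)` (`h1`), and `val_sub_lt` (over `M`) gives `W (τ T - T) < W (ξ - 1)`, contradicting `h2`.
See `exists_dec` in DH/Lev.lean for the handling of the fixed field. (Instances: `IntermediateField` of number fields is a `NumberField`.)
-/

set_option autoImplicit false

namespace Pool.Agent.Lib.MP_1a91b9_ntT.DY

open NumberField IsDedekindDomain WeierstrassCurve DB DX

universe u

/-- the ramification index is at most the degree -/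
private theorem core_ram {N M : Type u} [Field N] [NumberField N] [Field M] [NumberField M]
    [Algebra N M] (w : HeightOneSpectrum (𝓞 M)) :
    w.asIdeal.ramificationIdx (𝓞 N) ≤ Module.finrank N M := by
  have hns : NoZeroSMulDivisors (𝓞 N) (𝓞 M) := ⟨fun {a b} hab => by
    rw [Algebra.smul_def] at hab
    rcases mul_eq_zero.mp hab with h | h
    · exact Or.inl ((map_eq_zero_iff _ (FaithfulSMul.algebraMap_injective _ _)).mp h)
    · exact Or.inr h⟩
  have hp0 : (w.under (𝓞 N)).asIdeal ≠ ⊥ := (w.under (𝓞 N)).ne_bot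
  have hpr : w.asIdeal.IsPrime := w.isPrime
  have hmax : (w.under (𝓞 N)).asIdeal.IsMaximal := (w.under (𝓞 N)).isMaximal
  have hlo : w.asIdeal.LiesOver (w.under (𝓞 N)).asIdeal := ⟨rfl⟩
  have h1 : (w.under (𝓞 N)).asIdeal.ramificationIdx' w.asIdeal ≤ Module.finrank N M :=
    Ideal.ramificationIdx_le_finrank (𝓞 M) N M w.asIdeal
  rw [Ideal.ramificationIdx'_eq_ramificationIdx _ w.asIdeal hp0] at h1
  exact h1

/-- the statement for a tower -/
private theorem core_tower {N M L : Type u} [Field N] [NumberField N] [Field M] [NumberField M]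
    [Field L] [NumberField L] [Algebra N M] [Algebra M L] [Algebra N L] [IsScalarTower N M L]
    [IsGalois M L] {ℓ : ℕ} (hℓ : ℓ.Prime) (W : HeightOneSpectrum (𝓞 L)) {y : N} {α : L}
    (hy : y ≠ 0) (hα : α ^ ℓ = algebraMap N L y) (hdeg : Module.finrank N M < ℓ)
    (h1 : ∀ σ : Gal(L/M), σ α = α → σ = 1) {T : L} (hT : W.valuation L T ≤ 1)
    (h2 : ∀ σ : Gal(L/M), ∀ ξ : L, ξ ≠ 1 → ξ ^ ℓ = 1 → σ α = ξ * α →
      W.valuation L (ξ - 1) ≤ W.valuation L (σ T - T)) :
    (ℓ : ℤ) ∣ od (W.under (𝓞 N)) y := by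
  by_contra hn
  have hfin : FiniteDimensional M L := Module.Finite.of_restrictScalars_finite ℚ M L
  have hℓp : Prime (ℓ : ℤ) := Nat.prime_iff_prime_int.1 hℓ
  have hα' : α ^ ℓ = algebraMap M L (algebraMap N M y) := by
    rw [hα, ← IsScalarTower.algebraMap_apply N M L]
  have hy' : algebraMap N M y ≠ 0 := (map_ne_zero (algebraMap N M)).2 hy
  have hα0 : α ≠ 0 := by
    rintro rfl
    rw [zero_pow hℓ.ne_zero] at hα'
    exact hy' ((map_eq_zero (algebraMap M L)).1 hα'.symm)
  have hu : (W.under (𝓞 M)).under (𝓞 N) = W.under (𝓞 N) := by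
    apply HeightOneSpectrum.ext
    ext x
    change algebraMap (𝓞 M) (𝓞 L) (algebraMap (𝓞 N) (𝓞 M) x) ∈ W.asIdeal ↔
      algebraMap (𝓞 N) (𝓞 L) x ∈ W.asIdeal
    have h3 : algebraMap (𝓞 M) (𝓞 L) (algebraMap (𝓞 N) (𝓞 M) x) = algebraMap (𝓞 N) (𝓞 L) x := by
      apply RingOfIntegers.ext
      exact (IsScalarTower.algebraMap_apply N M L (x : N)).symm
    rw [h3]
  have hod := od_map (k := N) (W.under (𝓞 M)) y
  rw [hu] at hod
  have hn' : ¬ (ℓ : ℤ) ∣ od (W.under (𝓞 M)) (algebraMap N M y) := by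
    rw [hod]
    intro h3
    rcases hℓp.dvd_or_dvd h3 with h4 | h4
    · have h5 : ℓ ∣ (W.under (𝓞 M)).asIdeal.ramificationIdx (𝓞 N) := by exact_mod_cast h4
      have h6 := Nat.le_of_dvd (ramIdx_pos (k := N) (W.under (𝓞 M))) h5
      exact absurd (h6.trans (core_ram (W.under (𝓞 M)))) (not_le.2 hdeg)
    · exact hn h4
  obtain ⟨τ, hτ⟩ : ∃ τ : Gal(L/M), τ α ≠ α := by
    by_contra hc
    push Not at hc
    obtain ⟨z, hz⟩ := (IsGalois.mem_range_algebraMap_iff_fixed (F := M) α).2 hc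
    apply hn'
    have h3 : z ^ ℓ = algebraMap N M y := by
      apply (algebraMap M L).injective
      rw [map_pow, hz, hα']
    rw [← h3, od_pow]
    exact dvd_mul_right _ _
  have hξ1 : τ α / α ≠ 1 := fun h3 => hτ ((div_eq_one_iff_eq hα0).1 h3)
  have hξℓ : (τ α / α) ^ ℓ = 1 := by
    rw [div_pow, ← map_pow, hα', AlgEquiv.commutes, div_self]
    exact (map_ne_zero (algebraMap M L)).2 hy'
  have hτ' : τ α = τ α / α * α := (div_mul_cancel₀ _ hα0).symm
  have h3 := val_sub_lt hℓ W hy' hα' hn' (T := T)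
    (fun σ hσ => by rw [h1 σ hσ]; rfl) hT hξ1 hτ'
  exact absurd h3 (not_lt.2 (h2 τ _ hξ1 hξℓ hτ'))

theorem core {N L : Type u} [Field N] [NumberField N] [Field L] [NumberField L] [Algebra N L]
    [IsGalois N L] {ℓ : ℕ} (hℓ : ℓ.Prime) (W : HeightOneSpectrum (𝓞 L)) {y : N} {α : L}
    (hy : y ≠ 0) (hα : α ^ ℓ = algebraMap N L y) (S : Subgroup Gal(L/N)) (hS : S.index < ℓ)
    (h1 : ∀ σ ∈ S, σ α = α → σ = 1) {T : L} (hT : W.valuation L T ≤ 1)
    (h2 : ∀ σ ∈ S, ∀ ξ : L, ξ ≠ 1 → ξ ^ ℓ = 1 → σ α = ξ * α →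
      W.valuation L (ξ - 1) ≤ W.valuation L (σ T - T)) :
    (ℓ : ℤ) ∣ od (W.under (𝓞 N)) y := by
  have hfin : FiniteDimensional N L := Module.Finite.of_restrictScalars_finite ℚ N L
  have hfix : (IntermediateField.fixedField S).fixingSubgroup = S :=
    IntermediateField.fixingSubgroup_fixedField S
  have hmem : ∀ σ : Gal(L/(IntermediateField.fixedField S)), toF N σ ∈ S := by
    intro σ
    have h3 : toF N σ ∈ (IntermediateField.fixedField S).fixingSubgroup :=
      fun x => σ.commutes x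
    exact hfix.le h3
  have hdeg : Module.finrank N (IntermediateField.fixedField S) < ℓ := by
    have h3 := Module.finrank_mul_finrank N (IntermediateField.fixedField S) L
    rw [IntermediateField.finrank_fixedField_eq_card, ← IsGalois.card_aut_eq_finrank N L,
      ← Subgroup.card_mul_index S, mul_comm] at h3
    have h4 : 0 < Nat.card S := Nat.card_pos
    rw [Nat.eq_of_mul_eq_mul_left h4 h3]
    exact hS
  refine core_tower (M := IntermediateField.fixedField S) hℓ W hy hα hdeg ?_ hT ?_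
  · intro σ hσ
    have h3 := h1 (toF N σ) (hmem σ) hσ
    apply AlgEquiv.ext
    intro x
    exact congrArg (fun g : Gal(L/N) => g x) h3
  · intro σ ξ hξ1 hξℓ hσ
    exact h2 (toF N σ) (hmem σ) ξ hξ1 hξℓ hσ

end Pool.Agent.Lib.MP_1a91b9_ntT.DY
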