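import Pool.Agent.Lib.MP_1a91b9_ntT.S1.Recip

/-!
# The quadratic symbol at the dyadic places
-/

set_option autoImplicit false

namespace Pool.Agent.Lib.MP_1a91b9_ntT.DY

open NumberField IsDedekindDomain Pool.Agent.Lib.MP_1a91b9_ntT.S1

section
variable {F : Type*} [Field F]

/-- `δ` is a square modulo `4 v`. -/
def IsSp (v : HeightOneSpectrum (𝓞 F)) (δ : 𝓞 F) : Prop :=
  ∃ c : 𝓞 F, c ^ 2 - δ ∈ Ideal.span {(4 : 𝓞 F)} * v.asIdeal

/-- The symbol of `δ` (a square modulo `4`) at a dyadic place. -/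
noncomputable def chi2 (v : HeightOneSpectrum (𝓞 F)) (δ : 𝓞 F) : ℤ := by
  classical exact if IsSp v δ then 1 else -1

theorem chi2_pos {v : HeightOneSpectrum (𝓞 F)} {δ : 𝓞 F} (h : IsSp v δ) : chi2 v δ = 1 := by
  unfold chi2
  rw [if_pos h]

theorem chi2_neg {v : HeightOneSpectrum (𝓞 F)} {δ : 𝓞 F} (h : ¬ IsSp v δ) : chi2 v δ = -1 := by
  unfold chi2
  rw [if_neg h]

theorem chi2_cases (v : HeightOneSpectrum (𝓞 F)) (δ : 𝓞 F) : chi2 v δ = 1 ∨ chi2 v δ = -1 := by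
  by_cases h : IsSp v δ
  · exact Or.inl (chi2_pos h)
  · exact Or.inr (chi2_neg h)

/-- The symbol of `δ` at `Q`, for all places. -/
noncomputable def cx (Q : HeightOneSpectrum (𝓞 F)) (δ : 𝓞 F) : ℤ := by
  classical exact if (2 : 𝓞 F) ∈ Q.asIdeal then chi2 Q δ else chi Q δ

theorem cx_two {Q : HeightOneSpectrum (𝓞 F)} (δ : 𝓞 F) (h : (2 : 𝓞 F) ∈ Q.asIdeal) :
    cx Q δ = chi2 Q δ := by
  unfold cx
  rw [if_pos h]

theorem cx_odd {Q : HeightOneSpectrum (𝓞 F)} (δ : 𝓞 F) (h : (2 : 𝓞 F) ∉ Q.asIdeal) :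
    cx Q δ = chi Q δ := by
  unfold cx
  rw [if_neg h]

variable [NumberField F]

/-- The local factor at `Q` of the product formula for `z` and `δ`. -/
noncomputable def sy (δ z : 𝓞 F) (Q : HeightOneSpectrum (𝓞 F)) : ℤ := by
  classical exact if OddAt Q δ then chi Q z else cx Q δ ^ od Q.asIdeal (Ideal.span {z})

theorem sy_odd {δ z : 𝓞 F} {Q : HeightOneSpectrum (𝓞 F)} (h : OddAt Q δ) :
    sy δ z Q = chi Q z := by
  unfold sy
  rw [if_pos h]

theorem sy_even {δ z : 𝓞 F} {Q : HeightOneSpectrum (𝓞 F)} (h : ¬ OddAt Q δ) :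
    sy δ z Q = cx Q δ ^ od Q.asIdeal (Ideal.span {z}) := by
  unfold sy
  rw [if_neg h]

end

end Pool.Agent.Lib.MP_1a91b9_ntT.DY
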