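import Pool.Agent.Lib.MP_1a91b9_ntT.DX.Top

/-!
# DY: a root of an element of order prime to `ℓ` at a place above `ℓ`

JOB LEM. PROOF (complete; helper30). Stream DY: the divisibility by `ℓ` of the valuation of the Kummer class at the places above `cj ϖ`.
`w = W.under (𝓞 N)`, `e` the ramification index of `W` over `N`, `od W (algebraMap x) = e * od w x` (`od_map`).
(1) `ξ ^ ℓ = 1`: `(ξ α)^ℓ = τ (α^ℓ) = α^ℓ`, `α ≠ 0`. So `W ξ = 1`.
(2) Reduction to `od w a = 1`. `m : ℕ` with `m * od w a = 1 - ℓ j` (`ℓ` prime, `¬ ℓ ∣ od w a`; `m` with `0 < m`), `c : N` with `od w c = 1` (`exists_od_one`), `b = c ^ j`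
(integer power), `a' = a ^ m * b ^ ℓ`: `od w a' = 1`. `α' = α ^ m * b`, `α' ^ ℓ = a'`. `τ α' = ξ ^ m α'`. If `σ α' = α'` then `(σ α / α)^m = 1` and `(σ α / α)^ℓ = 1`, `m` and
`ℓ` are coprime, so `σ α = α`, hence `σ T = T`. `ξ' = ξ ^ m ≠ 1` (same argument), and `W (ξ' - 1) ≤ W (ξ - 1)` (`ξ^m - 1 = (ξ - 1) * (sum of powers)`, see `lva_le` in DX/Lev).
(3) `ℓ * od W α' = e`, so `W α' < 1`. `T` is a polynomial of degree `< ℓ` in `α'` over `N`: as `exists_poly` in DX/Lev (without the translation to `α - 1`: `T` is in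
`IntermediateField.adjoin N {α'}` by the Galois correspondence, every element is a polynomial in `α'`, reduce modulo `X^ℓ - a'`): `T = Σ_{j<ℓ} b_j α'^j`.
`W b_j ≤ 1` for all `j < ℓ` because `W T ≤ 1`: this is `lvc_coef` in DX/Lev with `y = α'` (private there: copy it).
(4) `τ T - T = Σ_{j<ℓ} b_j (ξ'^j - 1) α'^j`; the term `j = 0` vanishes and for `j ≥ 1`: `W (ξ'^j - 1) ≤ W (ξ' - 1)`, `W (α'^j) ≤ W α'`. So `W (τ T - T) ≤ W (ξ' - 1) * W α'`,
and this is `< W (ξ' - 1) ≤ W (ξ - 1)` (`W (ξ' - 1) ≠ 0`).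
-/

set_option autoImplicit false

namespace Pool.Agent.Lib.MP_1a91b9_ntT.DY

open NumberField IsDedekindDomain WeierstrassCurve DB DX

universe u

section
variable {N : Type u} [Field N] [NumberField N]

/-- `1 - ζ ^ j` is a multiple of `1 - ζ` -/
private theorem lem_le {ζ' : N} {w : HeightOneSpectrum (𝓞 N)} (h1 : w.valuation N ζ' ≤ 1)
    (j : ℕ) : w.valuation N (1 - ζ' ^ j) ≤ w.valuation N (1 - ζ') := by
  have e : 1 - ζ' ^ j = (1 - ζ') * ∑ i ∈ Finset.range j, ζ' ^ i := by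
    rw [mul_neg_geom_sum]
  rw [e, map_mul]
  refine mul_le_of_le_one_right' ?_
  refine Valuation.map_sum_le _ fun i _ => ?_
  rw [map_pow]
  exact pow_le_one' h1 i

/-- an element killed by two coprime exponents -/
private theorem lem_cop {F : Type*} [Field F] {x : F} {m n : ℕ} (hc : m.Coprime n)
    (hm : x ^ m = 1) (hn : x ^ n = 1) : x = 1 := by
  have h1 : x ^ m.gcd n = 1 := pow_gcd_eq_one.2 ⟨hm, hn⟩
  rw [hc.gcd_eq_one, pow_one] at h1
  exact h1

end

section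
variable {N L : Type u} [Field N] [NumberField N] [Field L] [NumberField L] [Algebra N L]

private theorem lem_poly [IsGalois N L] {ℓ : ℕ} (hℓ : 0 < ℓ) {a : N} {α : L}
    (hα : α ^ ℓ = algebraMap N L a) {z : L} (hz : ∀ σ : Gal(L/N), σ α = α → σ z = z) :
    ∃ b : ℕ → N, z = ∑ j ∈ Finset.range ℓ, algebraMap N L (b j) * α ^ j := by
  have : FiniteDimensional N L := Module.Finite.of_restrictScalars_finite ℚ N L
  have h1 : z ∈ IntermediateField.adjoin N ({α} : Set L) := by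
    rw [← IsGalois.fixedField_fixingSubgroup (IntermediateField.adjoin N ({α} : Set L)),
      IntermediateField.mem_fixedField_iff]
    intro σ hσ
    apply hz
    rw [IntermediateField.mem_fixingSubgroup_iff] at hσ
    exact hσ α (IntermediateField.mem_adjoin_simple_self N α)
  have h2 : z ∈ Algebra.adjoin N ({α} : Set L) := by
    rw [← IntermediateField.adjoin_simple_toSubalgebra_of_isAlgebraic
      (IsAlgebraic.of_finite N α)]
    exact h1
  rw [Algebra.adjoin_singleton_eq_range_aeval] at h2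
  obtain ⟨p, hp⟩ := h2
  have hmon : (Polynomial.X ^ ℓ - Polynomial.C a : Polynomial N).Monic :=
    Polynomial.monic_X_pow_sub_C a hℓ.ne'
  have hroot : Polynomial.aeval α (Polynomial.X ^ ℓ - Polynomial.C a : Polynomial N) = 0 := by
    rw [map_sub, map_pow, Polynomial.aeval_X, Polynomial.aeval_C, hα, sub_self]
  have hp2 : Polynomial.aeval α (p %ₘ (Polynomial.X ^ ℓ - Polynomial.C a)) = z := by
    rw [Polynomial.aeval_modByMonic_eq_self_of_root hroot]
    exact hp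
  have hdeg : (p %ₘ (Polynomial.X ^ ℓ - Polynomial.C a)).natDegree < ℓ := by
    have h3 := Polynomial.natDegree_modByMonic_lt p hmon (by
      intro h4
      have h5 := congrArg Polynomial.natDegree h4
      rw [Polynomial.natDegree_X_pow_sub_C, Polynomial.natDegree_one] at h5
      exact hℓ.ne' h5)
    rwa [Polynomial.natDegree_X_pow_sub_C] at h3
  set p1 := p %ₘ (Polynomial.X ^ ℓ - Polynomial.C a) with hp1
  refine ⟨fun j => p1.coeff j, ?_⟩
  have h4 := Polynomial.aeval_eq_sum_range' hdeg α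
  rw [hp2] at h4
  rw [h4]
  refine Finset.sum_congr rfl fun j _ => ?_
  rw [Algebra.smul_def]

private theorem lem_coef {ℓ : ℕ} (hℓ0 : 0 < ℓ) (W : HeightOneSpectrum (𝓞 L)) {y : L} (hy0 : y ≠ 0)
    (hy : (ℓ : ℤ) * od W y = (W.asIdeal.ramificationIdx (𝓞 N) : ℤ)) (b : ℕ → N)
    (hz : W.valuation L (∑ j ∈ Finset.range ℓ, algebraMap N L (b j) * y ^ j) ≤ 1) :
    ∀ j ∈ Finset.range ℓ, W.valuation L (algebraMap N L (b j)) ≤ 1 := by
  classical
  have he : 0 < (W.asIdeal.ramificationIdx (𝓞 N) : ℤ) := by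
    exact_mod_cast ramIdx_pos (k := N) W
  have hodt : ∀ j, b j ≠ 0 → algebraMap N L (b j) * y ^ j ≠ 0 := by
    intro j hj
    exact mul_ne_zero (by simpa using hj) (pow_ne_zero _ hy0)
  have hod : ∀ j, b j ≠ 0 → (ℓ : ℤ) * od W (algebraMap N L (b j) * y ^ j) =
      (W.asIdeal.ramificationIdx (𝓞 N) : ℤ) * ((ℓ : ℤ) * od (W.under (𝓞 N)) (b j) + j) := by
    intro j hj
    rw [od_mul W (by simpa using hj) (pow_ne_zero _ hy0), od_map, od_pow]
    calc (ℓ : ℤ) * ((W.asIdeal.ramificationIdx (𝓞 N) : ℤ) * od (W.under (𝓞 N)) (b j) +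
          (j : ℤ) * od W y)
        = (W.asIdeal.ramificationIdx (𝓞 N) : ℤ) * ((ℓ : ℤ) * od (W.under (𝓞 N)) (b j)) +
          (j : ℤ) * ((ℓ : ℤ) * od W y) := by ring
      _ = _ := by rw [hy]; ring
  have hℓZ : (0 : ℤ) < ℓ := by exact_mod_cast hℓ0
  intro j hj
  by_cases hbj : b j = 0
  · rw [hbj, map_zero, map_zero]
    exact zero_le
  -- the minimal index
  obtain ⟨m, hm, hmin⟩ := Finset.exists_min_image ((Finset.range ℓ).filter (fun i => b i ≠ 0))
    (fun i => (ℓ : ℤ) * od (W.under (𝓞 N)) (b i) + i) ⟨j, Finset.mem_filter.2 ⟨hj, hbj⟩⟩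
  rw [Finset.mem_filter] at hm
  have hlt : ∀ i ∈ Finset.range ℓ \ {m}, W.valuation L (algebraMap N L (b i) * y ^ i) <
      W.valuation L (algebraMap N L (b m) * y ^ m) := by
    intro i hi
    rw [Finset.mem_sdiff, Finset.mem_singleton] at hi
    have hm0 := hodt m hm.2
    by_cases hbi : b i = 0
    · rw [hbi, map_zero, zero_mul, map_zero]
      exact zero_lt_iff.2 ((Valuation.ne_zero_iff _).2 hm0)
    · have h1 := hmin i (Finset.mem_filter.2 ⟨hi.1, hbi⟩)
      have h2 : (ℓ : ℤ) * od (W.under (𝓞 N)) (b m) + m ≠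
          (ℓ : ℤ) * od (W.under (𝓞 N)) (b i) + i := by
        intro h3
        have h4 : (i : ℤ) % ℓ = (m : ℤ) % ℓ := by
          have h5 : ((ℓ : ℤ) * od (W.under (𝓞 N)) (b m) + m) % ℓ =
              ((ℓ : ℤ) * od (W.under (𝓞 N)) (b i) + i) % ℓ := by rw [h3]
          rw [Int.mul_add_emod_self_left, Int.mul_add_emod_self_left] at h5
          exact h5.symm
        have hi' := Finset.mem_range.1 hi.1
        have hm' := Finset.mem_range.1 hm.1
        rw [Int.emod_eq_of_lt (by positivity) (by exact_mod_cast hi'),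
          Int.emod_eq_of_lt (by positivity) (by exact_mod_cast hm')] at h4
        exact hi.2 (by exact_mod_cast h4)
      have h3 : (ℓ : ℤ) * od (W.under (𝓞 N)) (b m) + m <
          (ℓ : ℤ) * od (W.under (𝓞 N)) (b i) + i := lt_of_le_of_ne h1 h2
      have h4 : od W (algebraMap N L (b m) * y ^ m) < od W (algebraMap N L (b i) * y ^ i) := by
        have h5 : (ℓ : ℤ) * od W (algebraMap N L (b m) * y ^ m) <
            (ℓ : ℤ) * od W (algebraMap N L (b i) * y ^ i) := by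
          rw [hod m hm.2, hod i hbi]
          exact mul_lt_mul_of_pos_left h3 he
        exact lt_of_mul_lt_mul_left h5 hℓZ.le
      rw [← not_le, val_le_val_iff W hm0 (hodt i hbi), not_le]
      exact h4
  rw [Valuation.map_sum_eq_of_lt _ hm.1 hlt, val_le_one_iff W (hodt m hm.2)] at hz
  have h1 : 0 ≤ (ℓ : ℤ) * od (W.under (𝓞 N)) (b m) + m := by
    have h2 : 0 ≤ (W.asIdeal.ramificationIdx (𝓞 N) : ℤ) *
        ((ℓ : ℤ) * od (W.under (𝓞 N)) (b m) + m) := by
      rw [← hod m hm.2]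
      exact mul_nonneg hℓZ.le hz
    exact nonneg_of_mul_nonneg_right h2 he
  have h2 := h1.trans (hmin j (Finset.mem_filter.2 ⟨hj, hbj⟩))
  have hj' : (j : ℤ) < ℓ := by exact_mod_cast Finset.mem_range.1 hj
  have h3 : 0 ≤ od (W.under (𝓞 N)) (b j) := by
    by_contra h4
    push Not at h4
    have h5 : (ℓ : ℤ) * od (W.under (𝓞 N)) (b j) ≤ (ℓ : ℤ) * (-1) :=
      mul_le_mul_of_nonneg_left (by omega) hℓZ.le
    have h2' : 0 ≤ (ℓ : ℤ) * od (W.under (𝓞 N)) (b j) + j := h2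
    omega
  rw [val_map_le, val_le_one_iff _ hbj]
  exact h3

/-- the case where the order is one -/
private theorem lem_one [IsGalois N L] {ℓ : ℕ} (hℓ : ℓ.Prime) (W : HeightOneSpectrum (𝓞 L))
    {a : N} {α : L} (hα0 : α ≠ 0) (hα : α ^ ℓ = algebraMap N L a)
    (ha : od (W.under (𝓞 N)) a = 1) {T : L} (hz : ∀ σ : Gal(L/N), σ α = α → σ T = T)
    (hT : W.valuation L T ≤ 1) {τ : Gal(L/N)} {ξ : L} (hξ1 : ξ ≠ 1)
    (hξ : W.valuation L ξ ≤ 1) (hτ : τ α = ξ * α) :
    W.valuation L (τ T - T) < W.valuation L (ξ - 1) := by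
  have he : 0 < (W.asIdeal.ramificationIdx (𝓞 N) : ℤ) := by
    exact_mod_cast ramIdx_pos (k := N) W
  have hy : (ℓ : ℤ) * od W α = (W.asIdeal.ramificationIdx (𝓞 N) : ℤ) := by
    rw [← od_pow, hα, od_map, ha, mul_one]
  have hℓZ : (0 : ℤ) < ℓ := by exact_mod_cast hℓ.pos
  have hpos : 0 < od W α := by
    rw [← hy] at he
    exact pos_of_mul_pos_right he hℓZ.le
  have hlt : W.valuation L α < 1 := (val_lt_one_iff W hα0).2 hpos
  obtain ⟨b, hb⟩ := lem_poly hℓ.pos hα hz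
  rw [hb] at hT
  have hco := lem_coef hℓ.pos W hα0 hy b hT
  have hkey : τ T - T = ∑ j ∈ Finset.range ℓ,
      algebraMap N L (b j) * ((ξ ^ j - 1) * α ^ j) := by
    conv_lhs => rw [hb]
    rw [map_sum, ← Finset.sum_sub_distrib]
    refine Finset.sum_congr rfl fun j _ => ?_
    rw [map_mul, AlgEquiv.commutes, map_pow, hτ]
    ring
  have h0 : 0 < W.valuation L (ξ - 1) :=
    zero_lt_iff.2 ((Valuation.ne_zero_iff _).2 (sub_ne_zero.2 hξ1))
  have hle : W.valuation L (τ T - T) ≤ W.valuation L (ξ - 1) * W.valuation L α := by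
    rw [hkey]
    refine Valuation.map_sum_le _ fun j hj => ?_
    rcases Nat.eq_zero_or_pos j with rfl | hj0
    · rw [pow_zero, sub_self, zero_mul, mul_zero, map_zero]
      exact zero_le
    · rw [map_mul, map_mul]
      have h1 : W.valuation L (ξ ^ j - 1) ≤ W.valuation L (ξ - 1) := by
        rw [Valuation.map_sub_swap, Valuation.map_sub_swap _ ξ]
        exact lem_le hξ j
      have h2 : W.valuation L (α ^ j) ≤ W.valuation L α := by
        obtain ⟨i, rfl⟩ : ∃ i, j = i + 1 := ⟨j - 1, by omega⟩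
        rw [pow_succ, map_mul, map_pow]
        exact mul_le_of_le_one_left' (pow_le_one' hlt.le i)
      calc W.valuation L (algebraMap N L (b j)) *
            (W.valuation L (ξ ^ j - 1) * W.valuation L (α ^ j))
          ≤ 1 * (W.valuation L (ξ - 1) * W.valuation L α) :=
            mul_le_mul' (hco j hj) (mul_le_mul' h1 h2)
        _ = W.valuation L (ξ - 1) * W.valuation L α := one_mul _
  exact hle.trans_lt (mul_lt_of_lt_one_right h0 hlt)

end

theorem val_sub_lt {N L : Type u} [Field N] [NumberField N] [Field L] [NumberField L]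
    [Algebra N L] [IsGalois N L] {ℓ : ℕ} (hℓ : ℓ.Prime) (W : HeightOneSpectrum (𝓞 L)) {a : N}
    {α : L} (ha0 : a ≠ 0) (hα : α ^ ℓ = algebraMap N L a)
    (ha : ¬ (ℓ : ℤ) ∣ od (W.under (𝓞 N)) a) {T : L} (hz : ∀ σ : Gal(L/N), σ α = α → σ T = T)
    (hT : W.valuation L T ≤ 1) {τ : Gal(L/N)} {ξ : L} (hξ1 : ξ ≠ 1) (hτ : τ α = ξ * α) :
    W.valuation L (τ T - T) < W.valuation L (ξ - 1) := by
  have hℓ0 : ℓ ≠ 0 := hℓ.ne_zero
  have hα0 : α ≠ 0 := by
    rintro rfl
    rw [zero_pow hℓ0] at hα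
    exact ha0 ((map_eq_zero (algebraMap N L)).1 hα.symm)
  have hact : ∀ σ : Gal(L/N), (σ α) ^ ℓ = α ^ ℓ := by
    intro σ
    rw [← map_pow, hα, AlgEquiv.commutes]
  have hξℓ : ξ ^ ℓ = 1 := by
    have h1 := hact τ
    rw [hτ, mul_pow] at h1
    exact mul_right_cancel₀ (pow_ne_zero ℓ hα0) (h1.trans (one_mul _).symm)
  have hξ : W.valuation L ξ = 1 := by
    have h1 : W.valuation L ξ ^ ℓ = 1 := by rw [← map_pow, hξℓ, map_one]
    exact (pow_eq_one_iff_left hℓ0).mp h1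
  obtain ⟨d, hd⟩ : ∃ d, d = od (W.under (𝓞 N)) a := ⟨_, rfl⟩
  rw [← hd] at ha
  have hcop : IsCoprime d (ℓ : ℤ) :=
    ((Nat.prime_iff_prime_int.1 hℓ).coprime_iff_not_dvd.2 ha).symm
  obtain ⟨u, v, huv⟩ := hcop
  have hℓZ : (ℓ : ℤ) ≠ 0 := by exact_mod_cast hℓ0
  obtain ⟨m, hm⟩ : ∃ m : ℕ, (m : ℤ) = u % ℓ :=
    ⟨(u % ℓ).toNat, Int.toNat_of_nonneg (Int.emod_nonneg u hℓZ)⟩
  have hmd : (m : ℤ) * d + ℓ * (v + u / ℓ * d) = 1 := by
    have h1 := Int.emod_add_mul_ediv u ℓ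
    rw [← hm] at h1
    calc (m : ℤ) * d + ℓ * (v + u / ℓ * d) = ((m : ℤ) + ℓ * (u / ℓ)) * d + v * ℓ := by ring
      _ = 1 := by rw [h1, huv]
  have hmc : m.Coprime ℓ := by
    refine ((Nat.Prime.coprime_iff_not_dvd hℓ).2 ?_).symm
    intro h1
    have h2 : (ℓ : ℤ) ∣ (m : ℤ) := by exact_mod_cast h1
    have h3 : (ℓ : ℤ) ∣ 1 := by
      rw [← hmd]
      exact dvd_add (h2.mul_right d) (dvd_mul_right _ _)
    have h4 : ℓ ∣ 1 := by exact_mod_cast h3
    exact hℓ.one_lt.ne' (Nat.dvd_one.1 h4)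
  obtain ⟨c, hc⟩ := exists_od_one (W.under (𝓞 N))
  have hc0 : c ≠ 0 := by
    rintro rfl
    rw [od, map_zero, WithZero.log_zero, neg_zero] at hc
    exact absurd hc (by norm_num)
  obtain ⟨b, hb⟩ : ∃ b, b = c ^ (v + u / ℓ * d) := ⟨_, rfl⟩
  have hb0 : b ≠ 0 := by
    rw [hb]
    exact zpow_ne_zero _ hc0
  have hbL : algebraMap N L b ≠ 0 := (map_ne_zero (algebraMap N L)).2 hb0
  have hod : od (W.under (𝓞 N)) (a ^ m * b ^ ℓ) = 1 := by
    rw [od_mul _ (pow_ne_zero _ ha0) (pow_ne_zero _ hb0), od_pow, od_pow, hb, od_zpow, hc, ← hd,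
      mul_one]
    exact hmd
  have hα' : (α ^ m * algebraMap N L b) ^ ℓ = algebraMap N L (a ^ m * b ^ ℓ) := by
    rw [mul_pow, ← pow_mul, mul_comm m ℓ, pow_mul, hα, map_mul, map_pow, map_pow]
  have hz' : ∀ σ : Gal(L/N), σ (α ^ m * algebraMap N L b) = α ^ m * algebraMap N L b →
      σ T = T := by
    intro σ hσ
    apply hz
    rw [map_mul, AlgEquiv.commutes, map_pow] at hσ
    have h1 : (σ α) ^ m = α ^ m := mul_right_cancel₀ hbL hσ
    have h2 : (σ α / α) ^ m = 1 := by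
      rw [div_pow, h1, div_self (pow_ne_zero _ hα0)]
    have h3 : (σ α / α) ^ ℓ = 1 := by
      rw [div_pow, hact σ, div_self (pow_ne_zero _ hα0)]
    have h4 := lem_cop hmc h2 h3
    exact (div_eq_one_iff_eq hα0).1 h4
  have hξm : ξ ^ m ≠ 1 := fun h1 => hξ1 (lem_cop hmc h1 hξℓ)
  have hξm1 : W.valuation L (ξ ^ m) ≤ 1 := by rw [map_pow, hξ, one_pow]
  have hτ' : τ (α ^ m * algebraMap N L b) = ξ ^ m * (α ^ m * algebraMap N L b) := by
    rw [map_mul, AlgEquiv.commutes, map_pow, hτ, mul_pow, mul_assoc]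
  refine (lem_one hℓ W (mul_ne_zero (pow_ne_zero _ hα0) hbL) hα' hod hz' hT hξm hξm1
    hτ').trans_le ?_
  rw [Valuation.map_sub_swap, Valuation.map_sub_swap _ ξ]
  exact lem_le hξ.le m

end Pool.Agent.Lib.MP_1a91b9_ntT.DY
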