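import Pool.Agent.Lib.MP_1a91b9_ntT.DY.TcT
import Pool.Agent.Lib.MP_1a91b9_ntT.DY.Core

/-!
# DY: the Kummer class of a locally trivial cocycle at the places above `cj ϖ` (split case)

JOB TCA. PROOF (complete; helper30). Follow `td_od` (DY/Td.lean, read its header) with these changes. `W` above `w`, `N'` from `exists_dec` (DH/Lev.lean) for `W` and `N`: `L/N'` Galois, the
ramification index of `w' = W.under (𝓞 N')` over `N` is `1`, all `σ : Gal(L/N')` satisfy `gpl (toF N σ) W = W`. So `od w' (algebraMap N N' y) = od w y` (`od_map`), and it is enough to apply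
`core` over `N'` with `y' = algebraMap N N' y`, `α` and `T` from `tc_T` (DY/TcT.lean). `S` = kernel of `σ ↦ rs N₂ (toF F (toF N σ))` on `Gal(L/N')`, index `≤ ℓ - 1`. `h1`, `h2`: for
`σ : Gal(L/N')` use `hK.act (toF N σ) x` with `κ (toF F (toF N σ)) = sm L x (up L P₂)` (`D.exists_kap`); `σ α = α` gives `φ x = 0`, `cj ϖ ∣ x` (`phi_inj`), `κ .. = 0`, `D.gen`
(`D.chi_fix`, see `TC.card_stab` in DH/Lev) gives `toF F (toF N σ) = 1`, `σ = 1`. `h2`: `W (ξ - 1) = W (tc (up L P₂)) = W (σ T - T)` by `od_root`, `od_tcP`, `tc_T`.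
-/

set_option autoImplicit false

namespace Pool.Agent.Lib.MP_1a91b9_ntT.DY

open NumberField IsDedekindDomain WeierstrassCurve DB DX

universe u

open Pool.Agent.Lib.MP_1a91b9_ntT.DH (TC LocSol)

/-- the action on the second field -/
private theorem tca_hom {F N N₂ N' L : Type u} [Field F] [Field N] [Field N₂] [Field N'] [Field L]
    [Algebra F N] [Algebra F N₂] [Algebra F L] [Algebra N L] [Algebra N₂ L] [Algebra N N']
    [Algebra N' L] [IsScalarTower N N' L] [IsScalarTower F N L] [IsScalarTower F N₂ L]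
    [IsGalois F N₂] :
    ∃ ρ : Gal(L/N') →* Gal(N₂/F), ∀ σ, ρ σ = rs N₂ (toF F (toF N σ)) := by
  refine ⟨⟨⟨fun σ => rs N₂ (toF F (toF N σ)), ?_⟩, ?_⟩, fun _ => rfl⟩
  · apply AlgEquiv.ext
    intro x
    apply (algebraMap N₂ L).injective
    exact AlgEquiv.restrictNormal_commutes _ N₂ x
  · intro a b
    apply AlgEquiv.ext
    intro x
    apply (algebraMap N₂ L).injective
    rw [AlgEquiv.mul_apply]
    have h1 := AlgEquiv.restrictNormal_commutes (toF F (toF N (a * b))) N₂ x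
    have h2 := AlgEquiv.restrictNormal_commutes (toF F (toF N a)) N₂
      ((toF F (toF N b)).restrictNormal N₂ x)
    have h3 := AlgEquiv.restrictNormal_commutes (toF F (toF N b)) N₂ x
    rw [h3] at h2
    exact h1.trans h2.symm

section
variable {F N N₂ L : Type u} [Field F] [NumberField F] [Algebra K F] [Field N] [NumberField N]
  [Algebra K N] [Field N₂] [NumberField N₂] [Algebra K N₂] [Field L] [NumberField L] [Algebra K L]
  [Algebra F N] [Algebra F N₂] [Algebra F L] [Algebra N L] [Algebra N₂ L]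
  [IsScalarTower K F N] [IsScalarTower K F N₂] [IsScalarTower K F L] [IsScalarTower K N L]
  [IsScalarTower K N₂ L] [IsScalarTower F N L] [IsScalarTower F N₂ L]
  [DecidableEq F] [DecidableEq N] [DecidableEq N₂] [DecidableEq L]
  [IsGalois F N] [IsGalois F N₂] [IsGalois F L]

  {ϖ : 𝓞 K} {ℓ q : ℕ} {P₀ : Pt N} {P₂ : Pt N₂} {ζ : L} {κ : Gal(L/F) → Pt L}
  (D : TC ϖ ℓ q P₀ P₂ ζ κ)
include D

theorem tc_od (hcop : IsCoprime ϖ (cj ϖ))
    (hun : ∀ v : HeightOneSpectrum (𝓞 F), v.valuation F (ℓ : F) < 1 → od v (ℓ : F) = 1)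
    (hloc : ∀ W : HeightOneSpectrum (𝓞 L), LocSol κ W)
    {φ : 𝓞 K →+ ZMod ℓ} (hφ : φ ≠ 0) {y : Nˣ} {α : L} (hK : DH.KC F ϖ ℓ P₀ P₂ ζ κ φ y α)
    (w : HeightOneSpectrum (𝓞 N)) (hw : w.valuation N (algebraMap K N (cj ϖ : K)) < 1) :
    (ℓ : ℤ) ∣ od w (y : N) := by
  have hGal : IsGalois N L := IsGalois.tower_top_of_isGalois F N L
  have hℓ : ℓ.Prime := D.pd.hl
  have hq : q = ℓ := by
    rcases pd_cases D.pd with h1 | h1
    · exact h1.1
    · exfalso
      obtain ⟨a, b, hab⟩ := hcop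
      rw [h1.2] at hab
      apply D.pd.prime.not_isUnit
      rw [isUnit_iff_dvd_one, ← hab]
      exact dvd_add (Dvd.intro_left a rfl) (Dvd.intro_left b rfl)
  subst hq
  have hc : PD (cj ϖ) q q := pd_cj D.pd
  obtain ⟨W, hWw⟩ := CF.exists_over (N := L) w
  have hWc : W.valuation L (algebraMap K L (cj ϖ : K)) < 1 := by
    rw [IsScalarTower.algebraMap_apply K N L, val_map_lt, hWw]
    exact hw
  obtain ⟨T, hT1, hT2⟩ := tc_T D W (hloc W) hWc
  -- the decomposition field
  obtain ⟨N', _, _, _, _, _, _, _, _, hgal', hram, hdec⟩ := DH.exists_dec (N := N) W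
  have hunder : (W.under (𝓞 N')).under (𝓞 N) = w := by
    rw [← hWw]
    apply HeightOneSpectrum.ext
    simp only [HeightOneSpectrum.under_asIdeal]
    rw [Ideal.under_under]
  have hodN : ∀ z : N, od (W.under (𝓞 N')) (algebraMap N N' z) = od w z := by
    intro z
    rw [od_map, hram, hunder, Nat.cast_one, one_mul]
  have hα0 : α ≠ 0 := by
    intro h0
    have h1 := hK.pow
    rw [h0, zero_pow hℓ.ne_zero] at h1
    have h2 : algebraMap N L (y : N) ≠ 0 := by
      rw [Ne, map_eq_zero]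
      exact y.ne_zero
    exact h2 h1.symm
  have hR₂ : Ord (cj ϖ) (up L P₂) := (ord_up L).2 D.full₂.ord
  -- the valuation of the parameter of the torsion points
  have hodP := od_tcP hc (L := L) hun D.full₂ W hWc
  have hℓW : 0 < od W (q : L) := by
    rw [← val_lt_one_iff W (Nat.cast_ne_zero.mpr hℓ.ne_zero)]
    exact (pd_val_ell_iff hc).2 (Or.inl hWc)
  have htc0 : tc (up L P₂) ≠ 0 := by
    intro h0
    have h1 : od W (0 : L) = 0 := by
      unfold od
      rw [map_zero, WithZero.log_zero, neg_zero]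
    rw [h0, h1, mul_zero] at hodP
    omega
  have hq1 : (0 : ℤ) < (q : ℤ) - 1 := by
    have h1 := hℓ.one_lt
    omega
  have hval : ∀ ξ : L, ξ ≠ 1 → ξ ^ q = 1 →
      W.valuation L (ξ - 1) = W.valuation L (tc (up L P₂)) := by
    intro ξ hξ1 hξ
    have h1 := od_root hℓ hξ hξ1 W
    have h2 : od W (ξ - 1) = od W (tc (up L P₂)) :=
      mul_left_cancel₀ hq1.ne' (h1.trans hodP.symm)
    rw [val_eq W (sub_ne_zero.2 hξ1), val_eq W htc0, h2]
  -- the kernel of the action on the second field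
  obtain ⟨ρ, hρ⟩ := tca_hom (F := F) (N := N) (N₂ := N₂) (N' := N') (L := L)
  have hfin : FiniteDimensional F N₂ := Module.Finite.of_restrictScalars_finite ℚ F N₂
  have hidx : ρ.ker.index < q := by
    have h1 : ρ.ker.index = Nat.card ρ.range := Subgroup.index_ker ρ
    have h2 : Nat.card ρ.range ≤ Nat.card Gal(N₂/F) :=
      Nat.card_le_card_of_injective _ Subtype.val_injective
    have h3 : Nat.card Gal(N₂/F) = Module.finrank F N₂ := IsGalois.card_aut_eq_finrank F N₂
    have h4 := Full.card hc D.full₂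
    omega
  have hP₂ : ∀ σ ∈ ρ.ker, ga (toF F (toF N σ)) (up L P₂) = up L P₂ := by
    intro σ hσ
    have h1 : rs N₂ (toF F (toF N σ)) = 1 := by
      rw [← hρ]
      exact MonoidHom.mem_ker.1 hσ
    rw [ga_up, h1, ga_one]
  have hP₀ : ∀ σ : Gal(L/N'), ga (toF F (toF N σ)) (up L P₀) = up L P₀ := by
    intro σ
    rw [ga_toF, ga_up_self]
  -- the divisibility
  have hmain := core (N := N') hℓ W (y := algebraMap N N' (y : N)) (α := α) ?_ ?_ ρ.ker hidx ?_
    (T := T) hT1 ?_
  · rwa [hodN] at hmain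
  · rw [Ne, map_eq_zero]
    exact y.ne_zero
  · rw [hK.pow, ← IsScalarTower.algebraMap_apply N N' L]
  · intro σ hσ hfix
    obtain ⟨x, hx⟩ := D.exists_kap (toF F (toF N σ))
    have hact : σ α = ζ ^ (φ x).val * α := hK.act (toF N σ) x hx
    have h2 : ζ ^ (φ x).val = 1 := by
      have h3 : ζ ^ (φ x).val * α = 1 * α := by rw [one_mul, ← hact, hfix]
      exact mul_right_cancel₀ hα0 h3
    have hne : NeZero q := ⟨hℓ.ne_zero⟩
    have h3 := (D.zeta.pow_eq_one_iff_dvd _).1 h2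
    have h4 := Nat.eq_zero_of_dvd_of_lt h3 (ZMod.val_lt _)
    have h5 : φ x = 0 := (ZMod.val_eq_zero _).1 h4
    have h6 : cj ϖ ∣ x := phi_inj hc hφ hK.ker h5
    have h7 : κ (toF F (toF N σ)) = 0 := by
      rw [hx]
      exact (hR₂ x).2 h6
    have h8 : toF F (toF N σ) = 1 :=
      D.gen _ (hP₀ σ) (hP₂ σ hσ) h7 (D.chi_fix _ (hP₀ σ) (hP₂ σ hσ))
    refine AlgEquiv.ext fun z => ?_
    exact congrArg (fun g : Gal(L/F) => g z) h8
  · intro σ _ ξ hξ1 hξ hact'
    obtain ⟨x, hx⟩ := D.exists_kap (toF F (toF N σ))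
    have hxd : ¬ cj ϖ ∣ x := by
      intro hd
      have hact : σ α = ζ ^ (φ x).val * α := hK.act (toF N σ) x hx
      rw [hK.ker x hd, ZMod.val_zero, pow_zero, one_mul, hact'] at hact
      apply hξ1
      exact mul_right_cancel₀ hα0 (hact.trans (one_mul α).symm)
    have h1 := hT2 (toF N σ) (hdec σ) x hx hxd
    rw [hval ξ hξ1 hξ, ← h1]
    exact le_refl _

end

end Pool.Agent.Lib.MP_1a91b9_ntT.DY
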